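import Mathlib
import Pool.Agent.Lib.MP_6dec34_an.Weak

/-!
# MP_6dec34_an, Q1: sign-definite regions of Steklov eigenfunctions on an ellipse

Eigenfunctions are classical solutions: twice continuously differentiable and harmonic in the open
region, continuous with continuous gradient up to the boundary. The set is compact in the open
region, with interior points.
-/

set_option autoImplicit false

open MeasureTheory Set Topology

namespace Pool.Agent.Results.MP_6dec34_an.ClassicalSteklov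

/-- The open region bounded by the ellipse with semi-axes `a` and `b`. -/
def Region (a b : ℝ) : Set (ℝ × ℝ) := {x | (x.1 / a) ^ 2 + (x.2 / b) ^ 2 < 1}

/-- The outward unit normal of the ellipse at its point `x`: the normalised gradient of
`(x / a) ^ 2 + (y / b) ^ 2`. -/
noncomputable def normal (a b : ℝ) (x : ℝ × ℝ) : ℝ × ℝ :=
  (x.1 / a ^ 2 / Real.sqrt ((x.1 / a ^ 2) ^ 2 + (x.2 / b ^ 2) ^ 2),
    x.2 / b ^ 2 / Real.sqrt ((x.1 / a ^ 2) ^ 2 + (x.2 / b ^ 2) ^ 2))

/-- `u` is a Steklov eigenfunction (in the classical sense) of the region bounded by the ellipse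
with semi-axes `a`, `b`, with eigenvalue `σ`: it is not identically zero, twice continuously
differentiable and harmonic in the open region, continuous on the closure, its gradient extends
to a continuous field `(p, q)` on the closure, and at every boundary point the normal derivative
`(p, q) · ν` is `σ u`. No condition is imposed on `u` outside of the closed region. -/
structure IsSteklov (a b σ : ℝ) (u : ℝ × ℝ → ℝ) : Prop where
  nonzero : ∃ x ∈ Region a b, u x ≠ 0
  smooth : ContDiffOn ℝ 2 u (Region a b)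
  harmonic : ∀ x ∈ Region a b, fderiv ℝ (fun y => fderiv ℝ u y ((1 : ℝ), (0 : ℝ))) x (1, 0) +
    fderiv ℝ (fun y => fderiv ℝ u y ((0 : ℝ), (1 : ℝ))) x (0, 1) = 0
  cont : ContinuousOn u (closure (Region a b))
  bdry : ∃ p q : ℝ × ℝ → ℝ, ContinuousOn p (closure (Region a b)) ∧
    ContinuousOn q (closure (Region a b)) ∧
    (∀ x ∈ Region a b, fderiv ℝ u x ((1 : ℝ), (0 : ℝ)) = p x ∧
      fderiv ℝ u x ((0 : ℝ), (1 : ℝ)) = q x) ∧
    ∀ x ∈ frontier (Region a b), p x * (normal a b x).1 + q x * (normal a b x).2 = σ * u x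

theorem closed_subset (a b : ℝ) :
    {x : ℝ × ℝ | (x.1 / a) ^ 2 + (x.2 / b) ^ 2 ≤ 1} ⊆ closure (Region a b) := by
  intro x hx
  have hx' : (x.1 / a) ^ 2 + (x.2 / b) ^ 2 ≤ 1 := hx
  have hlim : Filter.Tendsto (fun n : ℕ => (1 - 1 / ((n : ℝ) + 1)) • x) Filter.atTop (𝓝 x) := by
    have h1 : Filter.Tendsto (fun n : ℕ => (1 : ℝ) - 1 / ((n : ℝ) + 1)) Filter.atTop
        (𝓝 (1 - 0)) := tendsto_const_nhds.sub tendsto_one_div_add_atTop_nhds_zero_nat
    have h2 := h1.smul_const x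
    rwa [sub_zero, one_smul] at h2
  refine mem_closure_of_tendsto hlim (Filter.Eventually.of_forall fun n => ?_)
  have hn : (0 : ℝ) < (n : ℝ) + 1 := by positivity
  have h3 : 0 < 1 / ((n : ℝ) + 1) := by positivity
  have h4 : 1 / ((n : ℝ) + 1) ≤ 1 := by
    rw [div_le_one hn]
    have : (0 : ℝ) ≤ n := Nat.cast_nonneg n
    linarith
  change (((1 - 1 / ((n : ℝ) + 1)) * x.1) / a) ^ 2 + (((1 - 1 / ((n : ℝ) + 1)) * x.2) / b) ^ 2 < 1
  have h5 : (((1 - 1 / ((n : ℝ) + 1)) * x.1) / a) ^ 2 + (((1 - 1 / ((n : ℝ) + 1)) * x.2) / b) ^ 2 =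
      (1 - 1 / ((n : ℝ) + 1)) ^ 2 * ((x.1 / a) ^ 2 + (x.2 / b) ^ 2) := by
    ring
  rw [h5]
  have h6 : (1 - 1 / ((n : ℝ) + 1)) ^ 2 < 1 := by nlinarith
  have h7 : 0 ≤ (1 - 1 / ((n : ℝ) + 1)) ^ 2 := sq_nonneg _
  have h8 : 0 ≤ (x.1 / a) ^ 2 + (x.2 / b) ^ 2 := by positivity
  calc (1 - 1 / ((n : ℝ) + 1)) ^ 2 * ((x.1 / a) ^ 2 + (x.2 / b) ^ 2)
      ≤ (1 - 1 / ((n : ℝ) + 1)) ^ 2 * 1 := mul_le_mul_of_nonneg_left hx' h7
    _ < 1 := by linarith

theorem mem_frontier_of {a b : ℝ} {x : ℝ × ℝ} (hx : (x.1 / a) ^ 2 + (x.2 / b) ^ 2 = 1) :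
    x ∈ frontier (Region a b) := by
  refine ⟨closed_subset a b hx.le, fun h => ?_⟩
  have h0 : x ∈ Region a b := interior_subset h
  have h1 : (x.1 / a) ^ 2 + (x.2 / b) ^ 2 < 1 := h0
  linarith

/-- **Main theorem.** Let `a > b > 0`. There are a compact set `E` in the open region bounded by the
ellipse with semi-axes `a` and `b`, with interior points and so of positive measure, and a number
`σ₀` such that no Steklov eigenfunction with eigenvalue `σ ≥ σ₀` changes sign on `E`. -/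
theorem result (a b : ℝ) (hb : 0 < b) (hab : b < a) :
    ∃ E : Set (ℝ × ℝ), IsCompact E ∧ E ⊆ Region a b ∧ (interior E).Nonempty ∧ 0 < volume E ∧
      ∃ σ₀ : ℝ, ∀ (σ : ℝ) (u : ℝ × ℝ → ℝ), σ₀ ≤ σ → IsSteklov a b σ u →
        (∀ x ∈ E, 0 ≤ u x) ∨ (∀ x ∈ E, u x ≤ 0) := by
  obtain ⟨O, hO, ⟨x₀, hx₀⟩, hsub, Λ, hΛ⟩ := Pool.Agent.Lib.MP_6dec34_an.weak hb hab
  obtain ⟨r, hr, hball⟩ := Metric.nhds_basis_closedBall.mem_iff.1 (hO.mem_nhds hx₀)
  have hint : (interior (Metric.closedBall x₀ r)).Nonempty :=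
    ⟨x₀, Metric.ball_subset_interior_closedBall (Metric.mem_ball_self hr)⟩
  refine ⟨Metric.closedBall x₀ r, isCompact_closedBall x₀ r, fun x hx => hsub (hball hx), hint,
    Measure.measure_pos_of_nonempty_interior _ hint, Λ, fun σ u hσ hu => ?_⟩
  obtain ⟨p, q, hp, hq, hpq, hbd⟩ := hu.bdry
  have hcl := closed_subset a b
  have hfin := hΛ σ hσ u p q hu.smooth (fun x hx => hu.harmonic x hx) (hu.cont.mono hcl)
    (hp.mono hcl) (hq.mono hcl) (fun x hx => hpq x hx) (fun x hx => by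
      have h1 := hbd x (mem_frontier_of hx)
      have h2 : 0 < Real.sqrt ((x.1 / a ^ 2) ^ 2 + (x.2 / b ^ 2) ^ 2) := by
        refine Real.sqrt_pos.2 ?_
        by_contra h0
        have h3 : (x.1 / a ^ 2) ^ 2 + (x.2 / b ^ 2) ^ 2 = 0 :=
          le_antisymm (not_lt.1 h0) (by positivity)
        have ha : 0 < a := hb.trans hab
        have k1 : 0 ≤ (x.1 / a ^ 2) ^ 2 := sq_nonneg _
        have k2 : 0 ≤ (x.2 / b ^ 2) ^ 2 := sq_nonneg _
        have h4 : (x.1 / a ^ 2) ^ 2 = 0 := by linarith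
        have h5 : (x.2 / b ^ 2) ^ 2 = 0 := by linarith
        have h6 : x.1 = 0 := by
          rcases div_eq_zero_iff.1 (pow_eq_zero_iff two_ne_zero |>.1 h4) with h | h
          · exact h
          · exact absurd h (by positivity)
        have h7 : x.2 = 0 := by
          rcases div_eq_zero_iff.1 (pow_eq_zero_iff two_ne_zero |>.1 h5) with h | h
          · exact h
          · exact absurd h (by positivity)
        have h8 : (x.1 / a) ^ 2 + (x.2 / b) ^ 2 = 1 := hx
        rw [h6, h7] at h8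
        simp at h8
      unfold normal at h1
      simp only at h1
      generalize Real.sqrt ((x.1 / a ^ 2) ^ 2 + (x.2 / b ^ 2) ^ 2) = s at *
      have h9 : p x * (x.1 / a ^ 2) + q x * (x.2 / b ^ 2) =
          s * (p x * (x.1 / a ^ 2 / s) + q x * (x.2 / b ^ 2 / s)) := by
        field_simp
      rw [h9, h1]
      ring)
  rcases hfin with h | h
  · exact Or.inl fun x hx => h x (hball hx)
  · exact Or.inr fun x hx => h x (hball hx)

end Pool.Agent.Results.MP_6dec34_an.ClassicalSteklov
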